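import Pool.Agent.K7.H83.Trk.Moll

/-!
# MP_93c926_an, Q1: the cost of `ε`-approximate boundary tracking is at most `C exp (C / ε)`

Positive answer to Q1. Idea: mollify the target `w` with the probability density
`c exp (-4 L² / t - b² t)` on `(0, ∞)`, `b ~ 1 / ε`. Its mean is `O(1 / b)`, it extends
holomorphically to the half plane `Re t > 0`, and by the Cauchy estimates its `k`-th derivative is
at most `C e^{6 L b} (2 k)! (3 / (4 L²))^k`. Hence the power series in `x` with the mollified target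
as flux at `x = 0` converges beyond `x = L` and gives a control of size `C e^{C b}`.
-/

set_option autoImplicit false

open Set

namespace Pool.Agent.Results.MP_93c926_an.TrackingCostUpperBound

open Pool.Agent.R190.Trk Pool.Agent.K7.H83.Trk

/-- **Q1, answered in the affirmative, with an explicit bound.** Let `L, T > 0`, let
`w : [0, T] → ℝ` be Lipschitz with constant `Λ` and `w(0) = 0` (that is, `w ∈ W^{1,∞}(0, T)` with
`|w'| ≤ Λ`). Then for every `ε > 0` the cost `K_w(ε)` of `ε`-approximate tracking of `w` is at most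
`2 T² e^{6 L + 1} Λ exp ((6 L + 1) (12 L + 2 / L) Λ / ε)`; in particular there is `C > 0` with
`K_w(ε) ≤ C exp (C / ε)` for all `ε > 0`. -/
theorem result {L T : ℝ} (hL : 0 < L) (hT : 0 < T) (w : ℝ → ℝ) (Λ : NNReal)
    (hw : LipschitzOnWith Λ w (Icc 0 T)) (hw0 : w 0 = 0) :
    (∀ ε : ℝ, 0 < ε → Kw L T w ε ≤
      ((2 * T ^ 2 * Real.exp (6 * L + 1) * Λ *
        Real.exp ((6 * L + 1) * (12 * L + 2 / L) * Λ / ε) : ℝ) : EReal)) ∧
    ∃ C : ℝ, 0 < C ∧ ∀ ε : ℝ, 0 < ε → Kw L T w ε ≤ ((C * Real.exp (C / ε) : ℝ) : EReal) := by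
  have ht : Target T Λ w := by
    refine ⟨Λ.2, fun s hs t ht => ?_, hw0⟩
    have := hw.dist_le_mul s hs t ht
    rwa [Real.dist_eq, Real.dist_eq] at this
  have h1 : ∀ ε : ℝ, 0 < ε → Kw L T w ε ≤
      ((2 * T ^ 2 * Real.exp (6 * L + 1) * Λ *
        Real.exp ((6 * L + 1) * (12 * L + 2 / L) * Λ / ε) : ℝ) : EReal) := by
    intro ε hε
    obtain ⟨v, hv, hn⟩ := track ht hL hT hε
    have hmem : ((nrm T v : ℝ) : EReal) ∈
        {r : EReal | ∃ v : ℝ → ℝ, Achieves L T w ε v ∧ r = ((nrm T v : ℝ) : EReal)} := ⟨v, hv, rfl⟩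
    unfold Kw
    exact (sInf_le hmem).trans (EReal.coe_le_coe_iff.2 hn)
  refine ⟨h1, ?_⟩
  have hΛ : (0 : ℝ) ≤ Λ := Λ.2
  set A : ℝ := 2 * T ^ 2 * Real.exp (6 * L + 1) * Λ with hA
  set B : ℝ := (6 * L + 1) * (12 * L + 2 / L) * Λ with hB
  have hA0 : 0 ≤ A := by positivity
  have hB0 : 0 ≤ B := by positivity
  refine ⟨A + B + 1, by positivity, fun ε hε => (h1 ε hε).trans (EReal.coe_le_coe_iff.2 ?_)⟩
  apply mul_le_mul (by linarith) _ (Real.exp_pos _).le (by positivity)
  apply Real.exp_le_exp.2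
  exact div_le_div_of_nonneg_right (by linarith) hε.le

end Pool.Agent.Results.MP_93c926_an.TrackingCostUpperBound
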